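import Mathlib

/-!
# Inertia groups surject under restriction
-/

set_option autoImplicit false

namespace Pool.Agent.W2helper60.TQ

open NumberField IsDedekindDomain
open scoped Pointwise

section lift

variable {K F L : Type} [Field K] [NumberField K] [Field F] [NumberField F] [Field L]
  [NumberField L] [Algebra K F] [Algebra F L] [Algebra K L] [IsScalarTower K F L]
  [IsGalois K F] [IsGalois K L]

omit [NumberField K] [NumberField F] [NumberField L] [IsGalois K L] in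
lemma restrict_smul (σ : Gal(L/K)) (x : 𝓞 F) :
    algebraMap (𝓞 F) (𝓞 L) ((AlgEquiv.restrictNormalHom F σ) • x) =
      σ • (algebraMap (𝓞 F) (𝓞 L) x) := by
  apply RingOfIntegers.ext
  exact AlgEquiv.restrictNormal_commutes σ F (x : F)

/-- every element of the inertia group of `w` lifts to an element of the inertia group of `W` -/
lemma lift_inertia (w : Ideal (𝓞 F)) (W : Ideal (𝓞 L)) [W.IsPrime] [W.LiesOver w] (g : Gal(F/K))
    (hg : ∀ x : 𝓞 F, g • x - x ∈ w) :
    ∃ σ : Gal(L/K), AlgEquiv.restrictNormalHom F σ = g ∧ ∀ x : 𝓞 L, σ • x - x ∈ W := by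
  classical
  have hFL : IsGalois F L := IsGalois.tower_top_of_isGalois K F L
  obtain ⟨g₁, hg₁⟩ := AlgEquiv.restrictNormalHom_surjective (F := K) (K₁ := F) L g
  have hw : ∀ x : 𝓞 F, x ∈ w ↔ algebraMap (𝓞 F) (𝓞 L) x ∈ W := fun x => by
    have h := (Ideal.LiesOver.over : w = W.under (𝓞 F))
    conv_lhs => rw [h]
    rfl
  have hi : ∀ x : 𝓞 F, g₁⁻¹ • (algebraMap (𝓞 F) (𝓞 L) x) = algebraMap (𝓞 F) (𝓞 L) (g⁻¹ • x) := by
    intro x
    rw [← restrict_smul, map_inv, hg₁]
  have hun : (g₁ • W).under (𝓞 F) = W.under (𝓞 F) := by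
    ext x
    change algebraMap (𝓞 F) (𝓞 L) x ∈ g₁ • W ↔ algebraMap (𝓞 F) (𝓞 L) x ∈ W
    rw [Ideal.mem_pointwise_smul_iff_inv_smul_mem, hi, ← hw, ← hw]
    have h1 := hg (g⁻¹ • x)
    rw [smul_inv_smul] at h1
    constructor
    · intro h
      have := w.add_mem h1 h
      rwa [sub_add_cancel] at this
    · intro h
      have := w.sub_mem h h1
      rwa [sub_sub_cancel] at this
  obtain ⟨t, ht⟩ := Algebra.IsInvariant.exists_smul_of_under_eq (𝓞 F) (𝓞 L) Gal(L/F)
    (g₁ • W) W hun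
  let g₂ : Gal(L/K) := (AlgEquiv.restrictScalars K t) * g₁
  have hg₂ : ∀ x : 𝓞 L, g₂ • x = t • (g₁ • x) := fun x => rfl
  have hgr : AlgEquiv.restrictNormalHom F g₂ = g := by
    apply AlgEquiv.ext
    intro x
    apply (algebraMap F L).injective
    have h1 : algebraMap F L (AlgEquiv.restrictNormalHom F g₂ x) = g₂ (algebraMap F L x) :=
      AlgEquiv.restrictNormal_commutes g₂ F x
    have h2 : algebraMap F L (AlgEquiv.restrictNormalHom F g₁ x) = g₁ (algebraMap F L x) :=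
      AlgEquiv.restrictNormal_commutes g₁ F x
    rw [h1, ← hg₁]
    change t (g₁ (algebraMap F L x)) = _
    rw [← h2, t.commutes]
  let e : 𝓞 L ≃+* 𝓞 L := MulSemiringAction.toRingEquiv Gal(L/K) (𝓞 L) g₂
  have he : ∀ x, e x = g₂ • x := fun x => rfl
  have hst : g₂ • W = W := by
    ext x
    rw [Ideal.mem_pointwise_smul_iff_inv_smul_mem]
    conv_rhs => rw [ht]
    rw [Ideal.mem_pointwise_smul_iff_inv_smul_mem, Ideal.mem_pointwise_smul_iff_inv_smul_mem]
    have : g₂⁻¹ • x = g₁⁻¹ • t⁻¹ • x := by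
      rw [inv_smul_eq_iff, hg₂, smul_inv_smul, smul_inv_smul]
    rw [this]
  have heW : W = W.map (e : 𝓞 L →+* 𝓞 L) := by
    conv_lhs => rw [← hst]
    rfl
  let f : (𝓞 L ⧸ W) ≃+* (𝓞 L ⧸ W) := Ideal.quotientEquiv W W e heW
  have hf : ∀ x : 𝓞 L, f (Ideal.Quotient.mk W x) = Ideal.Quotient.mk W (g₂ • x) := fun x => rfl
  let f' : (𝓞 L ⧸ W) ≃ₐ[𝓞 F ⧸ w] (𝓞 L ⧸ W) := AlgEquiv.ofRingEquiv (f := f) (by
    intro r
    obtain ⟨x, rfl⟩ := Ideal.Quotient.mk_surjective r
    change f (Ideal.Quotient.mk W (algebraMap (𝓞 F) (𝓞 L) x)) =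
      Ideal.Quotient.mk W (algebraMap (𝓞 F) (𝓞 L) x)
    rw [hf, ← restrict_smul, hgr, Ideal.Quotient.eq, ← map_sub, ← hw]
    exact hg x)
  obtain ⟨⟨s, hs⟩, hsf⟩ := Ideal.Quotient.stabilizerHom_surjective Gal(L/F) w W f'
  have hs1 : ∀ x : 𝓞 L, s • x - g₂ • x ∈ W := by
    intro x
    rw [← Ideal.Quotient.eq]
    have := congrArg (fun φ => φ (Ideal.Quotient.mk W x)) hsf
    exact this
  have hs2 : s • W = W := hs
  let s' : Gal(L/K) := AlgEquiv.restrictScalars K s
  have hs' : ∀ x : 𝓞 L, s' • x = s • x := fun x => rfl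
  refine ⟨s'⁻¹ * g₂, ?_, fun x => ?_⟩
  · rw [map_mul, map_inv, hgr]
    have : AlgEquiv.restrictNormalHom F s' = 1 := by
      apply AlgEquiv.ext
      intro x
      apply (algebraMap F L).injective
      have h1 : algebraMap F L (AlgEquiv.restrictNormalHom F s' x) = s' (algebraMap F L x) :=
        AlgEquiv.restrictNormal_commutes s' F x
      rw [h1]
      exact s.commutes x
    rw [this, inv_one, one_mul]
  · have h1 := hs1 x
    have h2 : s⁻¹ • (s • x - g₂ • x) ∈ W := by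
      rw [← Ideal.mem_pointwise_smul_iff_inv_smul_mem, hs2]
      exact h1
    rw [smul_sub, inv_smul_smul] at h2
    have h3 : (s'⁻¹ * g₂) • x = s⁻¹ • (g₂ • x) := rfl
    rw [h3]
    have := W.neg_mem h2
    rwa [neg_sub] at this

end lift

end Pool.Agent.W2helper60.TQ
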