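import Pool.Agent.W2helper60.TQ.Ar
import Pool.Agent.W2helper60.TQ.Inert

/-!
# The Artin map of a subfield of `K(ζ_m)`, local compatibility
-/

set_option autoImplicit false

namespace Pool.Agent.W2helper60.TQ

open NumberField IsDedekindDomain Pool.Agent.Y141.Art

/-- powers whose exponents are products of characteristics are injective -/
lemma pow_inj_of_char {k : Type} [CommRing k] [IsDomain k] {N : ℕ}
    (h : ∀ l : ℕ, l.Prime → l ∣ N → (l : k) = 0) {x y : k} (hN : N ≠ 0) (hxy : x ^ N = y ^ N) :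
    x = y := by
  induction N using induction_on_primes with
  | zero => exact absurd rfl hN
  | one => simpa using hxy
  | prime_mul p a hp ih =>
    have : Fact p.Prime := ⟨hp⟩
    have hc : CharP k p := (CharP.charP_iff_prime_eq_zero hp).2 (h p hp (dvd_mul_right _ _))
    have ha : a ≠ 0 := by
      rintro rfl
      simp at hN
    apply ih (fun l hl hd => h l hl (hd.mul_left _)) ha
    apply frobenius_inj k p
    rw [frobenius_def, frobenius_def, ← pow_mul, ← pow_mul, mul_comm a p]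
    exact hxy

lemma prim_pow_iff {M : Type} [CommMonoid M] {z : M} {m : ℕ} [NeZero m] (hz : IsPrimitiveRoot z m)
    (a b : ℕ) : z ^ a = z ^ b ↔ (a : ZMod m) = (b : ZMod m) := by
  rw [(hz.isOfFinOrder (NeZero.ne _)).pow_inj_mod, ← hz.eq_orderOf,
    ← ZMod.natCast_eq_natCast_iff']

section main

variable {K F L : Type} [Field K] [NumberField K] [IsCyclotomicExtension {3} ℚ K]
  [Field F] [NumberField F] [Algebra K F] [IsGalois K F] [Field L] [NumberField L] [Algebra F L]
  [Algebra K L] [IsScalarTower K F L]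

omit [NumberField K] [NumberField L] [IsCyclotomicExtension {3} ℚ K] in
lemma smul_zeta {m : ℕ} [NeZero m] {z : L} (hz : IsPrimitiveRoot z m) (σ : Gal(L/K)) :
    σ • hz.toInteger = hz.toInteger ^ ((hz.autToPow K σ : (ZMod m)ˣ) : ZMod m).val := by
  apply FaithfulSMul.algebraMap_injective (𝓞 L) L
  rw [map_pow]
  exact (hz.autToPow_spec K σ).symm

omit [NumberField F] [Algebra K F] [IsGalois K F] [Algebra F L] [IsScalarTower K F L] [Field F] in
/-- the integers of the cyclotomic field -/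
lemma inert_of_zeta {m : ℕ} [NeZero m] [IsCyclotomicExtension {m} K L] {z : L}
    (hz : IsPrimitiveRoot z m) (W : Ideal (𝓞 L)) (σ : Gal(L/K))
    (h : σ • hz.toInteger - hz.toInteger ∈ W) (y : 𝓞 L) : σ • y - y ∈ W := by
  have hcyc := cyc_lcm (F := K) (L := L) m
  have : NeZero (Nat.lcm 3 m) := ⟨Nat.lcm_ne_zero (by norm_num) (NeZero.ne m)⟩
  let oL : 𝓞 L := algebraMap (𝓞 K) (𝓞 L) (om K)
  have hoL : IsPrimitiveRoot oL 3 :=
    (om_prim (F := K)).map_of_injective (FaithfulSMul.algebraMap_injective (𝓞 K) (𝓞 L))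
  have hζ : IsPrimitiveRoot hz.toInteger m := hz.toInteger_isPrimitiveRoot
  obtain ⟨i, j, hξ⟩ : ∃ i j : ℕ, IsPrimitiveRoot (oL ^ i * hz.toInteger ^ j) (Nat.lcm 3 m) :=
    ⟨_, _, hoL.pow_mul_pow_lcm hζ (by norm_num) (NeZero.ne m)⟩
  set ξ := oL ^ i * hz.toInteger ^ j with hξdef
  have hξ' : IsPrimitiveRoot (algebraMap (𝓞 L) L ξ) (Nat.lcm 3 m) :=
    hξ.map_of_injective (FaithfulSMul.algebraMap_injective (𝓞 L) L)
  have htop := IsCyclotomicExtension.Rat.adjoin_singleton_eq_top hξ'
  have hto : hξ'.toInteger = ξ := rfl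
  rw [hto] at htop
  have hy : y ∈ Algebra.adjoin ℤ {ξ} := by
    rw [htop]
    exact Algebra.mem_top
  have hmk : ∀ x : 𝓞 L, σ • x - x ∈ W ↔ Ideal.Quotient.mk W (σ • x) = Ideal.Quotient.mk W x :=
    fun x => Ideal.Quotient.eq.symm
  rw [hmk] at h ⊢
  induction hy using Algebra.adjoin_induction with
  | mem x hx =>
    rw [Set.mem_singleton_iff] at hx
    subst hx
    have ho : σ • oL = oL := by
      apply RingOfIntegers.ext
      exact σ.commutes (algebraMap (𝓞 K) K (om K))
    rw [hξdef, smul_mul', smul_pow', smul_pow', ho, map_mul, map_mul, map_pow _ (σ • _), h,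
      map_pow _ hz.toInteger]
  | algebraMap r =>
    rw [eq_intCast]
    exact congrArg _ (map_intCast (MulSemiringAction.toRingHom Gal(L/K) (𝓞 L) σ) r)
  | add a b ha hb iha ihb => rw [smul_add, map_add, map_add, iha, ihb]
  | mul a b ha hb iha ihb => rw [smul_mul', map_mul, map_mul, iha, ihb]

/-- the local compatibility -/
lemma loc {m : ℕ} [NeZero m] [IsCyclotomicExtension {m} K L]
    (h3 : ∀ q : ℕ, q.Prime → q ∣ m → q % 3 = 1) {z : L} (hz : IsPrimitiveRoot z m)
    (e : Gal(L/K) ≃* (ZMod m)ˣ) (he : ∀ σ, e σ = hz.autToPow K σ)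
    (v₀ : HeightOneSpectrum (𝓞 K)) (c₁ c₂ : 𝓞 K) (hc : (m : 𝓞 K) = c₁ * c₂)
    (h1 : ∀ v : HeightOneSpectrum (𝓞 K), c₁ ∈ v.asIdeal → v = v₀) (h2 : c₂ ∉ v₀.asIdeal)
    (w : HeightOneSpectrum (𝓞 F)) (hw : w.asIdeal.LiesOver v₀.asIdeal) (g : Gal(F/K)) :
    (∀ x : 𝓞 F, g • x - x ∈ w.asIdeal) ↔
      ∃ (u : (𝓞 K ⧸ Ideal.span {(m : 𝓞 K)})ˣ) (α : 𝓞 K),
        (u : 𝓞 K ⧸ Ideal.span {(m : 𝓞 K)}) = Ideal.Quotient.mk _ α ∧ c₂ ∣ α - 1 ∧
        AlgEquiv.restrictNormalHom F (e.symm (Units.map (nq K m) u)) = g := by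
  classical
  obtain ⟨τ, hτ, hom, hN⟩ := exists_conj (K := K)
  obtain ⟨hco, N, m', hm', hc2, hN1, hm'v, hl⟩ := shape (NeZero.ne m) h3 τ hom hN v₀ c₁ c₂ hc h1 h2
  have hN0 : N ≠ 0 := by
    rintro rfl
    rw [zero_mul] at hm'
    exact NeZero.ne m hm'
  have hm'0 : m' ≠ 0 := by
    rintro rfl
    rw [mul_zero] at hm'
    exact NeZero.ne m hm'
  have hτn : ∀ k : ℤ, τ (k : 𝓞 K) = k := fun k => map_intCast τ k
  have hKL : IsGalois K L := IsCyclotomicExtension.isGalois {m} K L
  obtain ⟨W, hWm, hWw⟩ := Ideal.exists_maximal_ideal_liesOver_of_isIntegral w.asIdeal (S := 𝓞 L)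
  have hWp : W.IsPrime := hWm.isPrime
  have hmem : ∀ x : 𝓞 F, x ∈ w.asIdeal ↔ algebraMap (𝓞 F) (𝓞 L) x ∈ W := fun x => by
    have h := (Ideal.LiesOver.over : w.asIdeal = W.under (𝓞 F))
    conv_lhs => rw [h]
    rfl
  have hmem' : ∀ x : 𝓞 K, x ∈ v₀.asIdeal ↔ algebraMap (𝓞 K) (𝓞 L) x ∈ W := fun x => by
    have h := (Ideal.LiesOver.over : v₀.asIdeal = w.asIdeal.under (𝓞 K))
    conv_lhs => rw [h]
    change algebraMap (𝓞 K) (𝓞 F) x ∈ w.asIdeal ↔ _
    rw [hmem, ← IsScalarTower.algebraMap_apply (𝓞 K) (𝓞 F) (𝓞 L)]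
  have hnat : ∀ k : ℕ, (k : 𝓞 K) ∈ v₀.asIdeal ↔ (k : 𝓞 L) ∈ W := fun k => by
    rw [hmem', map_natCast]
  set ζ := hz.toInteger with hζdef
  have hζ : IsPrimitiveRoot ζ m := hz.toInteger_isPrimitiveRoot
  have hσζ : ∀ σ : Gal(L/K), σ • ζ = ζ ^ ((e σ : (ZMod m)ˣ) : ZMod m).val := fun σ => by
    rw [he, hζdef, smul_zeta]
  constructor
  · intro hg
    obtain ⟨σ, hσg, hσ⟩ := lift_inertia (K := K) (L := L) w.asIdeal W g hg
    set b := ((e σ : (ZMod m)ˣ) : ZMod m).val with hb
    have hbz : ζ ^ b - ζ ∈ W := by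
      rw [hb, ← hσζ]
      exact hσ ζ
    -- the exponent is one modulo m'
    have hbN : ((N * b : ℕ) : ZMod m) = ((N : ℕ) : ZMod m) := by
      set η := ζ ^ (N * b + N * (m - 1)) with hη
      have hη1 : η = 1 := by
        by_contra hne
        have hpow : η ^ m' = 1 := by
          have e1 : (N * b + N * (m - 1)) * m' = m * (b + (m - 1)) := by
            generalize m - 1 = k
            rw [hm']
            ring
          rw [hη, ← pow_mul, e1, pow_mul, hζ.pow_eq_one, one_pow]
        have hgs : (∑ i ∈ Finset.range m', η ^ i) * (η - 1) = 0 := by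
          rw [geom_sum_mul, hpow, sub_self]
        have hs : (∑ i ∈ Finset.range m', η ^ i) = 0 :=
          (mul_eq_zero.1 hgs).resolve_right (sub_ne_zero.2 hne)
        have hηW : Ideal.Quotient.mk W η = 1 := by
          have e1 : Ideal.Quotient.mk W (ζ ^ b) = Ideal.Quotient.mk W ζ := Ideal.Quotient.eq.2 hbz
          have e2 : η = (ζ ^ b) ^ N * ζ ^ (N * (m - 1)) := by
            rw [hη, pow_add, ← pow_mul, mul_comm b N]
          rw [e2, map_mul, map_pow, e1, ← map_pow, ← map_mul, ← pow_add]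
          have e3 : N + N * (m - 1) = m * N := by
            have : 1 ≤ m := NeZero.one_le
            obtain ⟨k, hk⟩ := Nat.exists_eq_add_of_le this
            rw [hk]
            simp
            ring
          rw [e3, pow_mul, hζ.pow_eq_one, one_pow, map_one]
        apply hm'v
        rw [hnat, ← Ideal.Quotient.eq_zero_iff_mem]
        have := congrArg (Ideal.Quotient.mk W) hs
        rw [map_sum, map_zero] at this
        simp only [map_pow, hηW, one_pow, Finset.sum_const, Finset.card_range, nsmul_eq_mul,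
          mul_one] at this
        rw [map_natCast]
        exact this
      have h5 : ζ ^ (N * b + N * (m - 1)) = ζ ^ 0 := by rw [← hη, hη1, pow_zero]
      rw [prim_pow_iff hζ] at h5
      have hm1 : ((m - 1 : ℕ) : ZMod m) = -1 := by
        rw [Nat.cast_sub NeZero.one_le, ZMod.natCast_self]
        simp
      push_cast at h5 ⊢
      rw [hm1] at h5
      linear_combination h5
    have hbm' : (m' : ℤ) ∣ (b : ℤ) - 1 := by
      have h5 : ((N * (b - 1) : ℤ) : ZMod m) = 0 := by
        push_cast at hbN ⊢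
        linear_combination hbN
      rw [ZMod.intCast_zmod_eq_zero_iff_dvd, hm'] at h5
      push_cast at h5
      exact (mul_dvd_mul_iff_left (by exact_mod_cast hN0)).1 h5
    -- the element
    obtain ⟨s, t, hst⟩ := hco
    set α : 𝓞 K := (b : 𝓞 K) * (t * c₂) + s * c₁ with hα
    have hα1 : c₁ ∣ α - b := ⟨s * (1 - b), by rw [hα]; linear_combination (b : 𝓞 K) * hst⟩
    have hα2 : c₂ ∣ α - 1 := ⟨t * (b - 1), by rw [hα]; linear_combination hst⟩
    have hco12 : IsCoprime c₁ c₂ := ⟨s, t, hst⟩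
    have hco1 : IsCoprime c₁ (τ c₁) := by
      rw [hc2] at hco12
      exact hco12.of_mul_right_left
    have hcom : IsCoprime c₁ (m' : 𝓞 K) := by
      rw [hc2] at hco12
      exact hco12.of_mul_right_right
    have hcom' : IsCoprime (τ c₁) (m' : 𝓞 K) := by
      have := hcom.map (τ : 𝓞 K →+* 𝓞 K)
      simpa using this
    set n : 𝓞 K := α * τ α - b with hn
    have hτn' : τ n = n := by
      rw [hn, map_sub, map_mul, hτ, map_natCast]
      ring
    have hn1 : c₁ ∣ n := by
      have e1 : c₁ ∣ τ α - 1 := by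
        have := map_dvd τ hα2
        rw [map_sub, map_one, hc2, map_mul, hτ, map_natCast] at this
        exact (Dvd.intro _ rfl).trans this
      have : n = (α - b) * τ α + b * (τ α - 1) := by rw [hn]; ring
      rw [this]
      exact dvd_add (hα1.mul_right _) (e1.mul_left _)
    have hn2 : τ c₁ ∣ n := by
      have := map_dvd τ hn1
      rwa [hτn'] at this
    have hn3 : (m' : 𝓞 K) ∣ n := by
      have e1 : (m' : 𝓞 K) ∣ α - 1 := by
        rw [hc2] at hα2
        exact (Dvd.intro_left _ rfl).trans hα2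
      have e2 : (m' : 𝓞 K) ∣ τ α - 1 := by
        have := map_dvd τ e1
        rwa [map_sub, map_one, map_natCast] at this
      have e3 : (m' : 𝓞 K) ∣ (b : 𝓞 K) - 1 := by
        have := map_dvd (Int.castRingHom (𝓞 K)) hbm'
        simpa using this
      have : n = (α - 1) * τ α + (τ α - 1) - (b - 1) := by rw [hn]; ring
      rw [this]
      exact dvd_sub (dvd_add (e1.mul_right _) e2) e3
    have hmn : (m : 𝓞 K) ∣ n := by
      rw [hc]
      refine hco12.mul_dvd hn1 ?_
      rw [hc2]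
      exact hcom'.mul_dvd hn2 hn3
    have hnm : nm K m α = ((e σ : (ZMod m)ˣ) : ZMod m) := by
      have h5 : ((m : ℤ) : 𝓞 K) ∣ ((Algebra.norm ℤ α - (b : ℤ) : ℤ) : 𝓞 K) := by
        push_cast
        rw [← hN]
        exact hmn
      have h6 := int_dvd h5
      rw [← ZMod.intCast_zmod_eq_zero_iff_dvd] at h6
      push_cast at h6
      rw [nm_apply, sub_eq_zero.1 h6, hb, ZMod.natCast_val, ZMod.cast_id', id]
    have hunit : IsUnit (Ideal.Quotient.mk (Ideal.span {(m : 𝓞 K)}) α) := by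
      obtain ⟨b', hb'⟩ := ZMod.intCast_surjective (((e σ)⁻¹ : (ZMod m)ˣ) : ZMod m)
      have h5 : (m : ℤ) ∣ Algebra.norm ℤ α * b' - 1 := by
        rw [← ZMod.intCast_zmod_eq_zero_iff_dvd]
        push_cast
        rw [← nm_apply, hnm, hb', Units.mul_inv, sub_self]
      refine IsUnit.of_mul_eq_one (Ideal.Quotient.mk _ (τ α * b')) ?_
      rw [← map_mul, ← map_one (Ideal.Quotient.mk (Ideal.span {(m : 𝓞 K)})), Ideal.Quotient.eq,
        Ideal.mem_span_singleton]
      have h6 := map_dvd (Int.castRingHom (𝓞 K)) h5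
      have h7 : α * (τ α * b') - 1 = ((Algebra.norm ℤ α * b' - 1 : ℤ) : 𝓞 K) := by
        push_cast
        rw [← hN]
        ring
      rw [h7]
      simpa using h6
    obtain ⟨u, hu⟩ := hunit
    refine ⟨u, α, hu, hα2, ?_⟩
    have h8 : Units.map (nq K m) u = e σ := by
      apply Units.ext
      rw [Units.coe_map]
      change nq K m (u : _) = _
      rw [hu, nq_mk, hnm]
    rw [h8, MulEquiv.symm_apply_apply, hσg]
  · rintro ⟨u, α, hu, hd, hug⟩ x
    set σ := e.symm (Units.map (nq K m) u) with hσ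
    have heσ : e σ = Units.map (nq K m) u := by rw [hσ, MulEquiv.apply_symm_apply]
    rw [hmem, map_sub, ← hug, restrict_smul]
    apply inert_of_zeta hz
    rw [← hζdef, hσζ]
    set b := ((e σ : (ZMod m)ˣ) : ZMod m).val with hb
    have hbα : (b : ZMod m) = nm K m α := by
      rw [hb, ZMod.natCast_val, ZMod.cast_id', id, heσ, Units.coe_map]
      change nq K m (u : _) = _
      rw [hu, nq_mk]
    have h5 : (m : ℤ) ∣ (b : ℤ) - Algebra.norm ℤ α := by
      rw [← ZMod.intCast_zmod_eq_zero_iff_dvd]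
      push_cast
      rw [hbα, nm_apply, sub_self]
    have h6 : (m' : ℤ) ∣ Algebra.norm ℤ α - 1 := by
      have e1 : (m' : 𝓞 K) ∣ α - 1 := by
        rw [hc2] at hd
        exact (Dvd.intro_left _ rfl).trans hd
      have e2 : nm K m' α = nm K m' 1 := by
        apply nm_congr
        rw [Ideal.Quotient.eq, Ideal.mem_span_singleton]
        exact e1
      rw [map_one, nm_apply] at e2
      rw [← ZMod.intCast_zmod_eq_zero_iff_dvd]
      push_cast
      rw [e2, sub_self]
    have h7 : (m' : ℤ) ∣ (b : ℤ) - 1 := by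
      have e1 : (m' : ℤ) ∣ (m : ℤ) := ⟨N, by rw [hm']; push_cast; ring⟩
      have := dvd_add (e1.trans h5) h6
      rwa [sub_add_sub_cancel] at this
    have h8 : ζ ^ (N * b) = ζ ^ N := by
      rw [prim_pow_iff hζ]
      have : ((N * (b - 1) : ℤ) : ZMod m) = 0 := by
        rw [ZMod.intCast_zmod_eq_zero_iff_dvd, hm']
        push_cast
        exact mul_dvd_mul_left _ h7
      push_cast at this ⊢
      linear_combination this
    rw [← Ideal.Quotient.eq]
    apply pow_inj_of_char (N := N) _ hN0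
    · rw [← map_pow, ← map_pow, ← pow_mul, mul_comm b N, h8]
    · intro l hlp hlN
      rw [← map_natCast (Ideal.Quotient.mk W), Ideal.Quotient.eq_zero_iff_mem, ← hnat]
      exact hl l hlp hlN

end main

end Pool.Agent.W2helper60.TQ
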