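import Pool.Agent.W2helper24.TQ.Stm2
import Pool.Agent.W2helper60.TQ.Loc

/-!
# Project TQ (owner helper24), piece E1: subfields of `K(ζ_m)`
-/

set_option autoImplicit false

namespace Pool.Agent.W2helper60.TQ

open NumberField IsDedekindDomain Pool.Agent.Y141.Art Pool.Agent.W2helper24.TQ Pool.Agent.Y696

theorem P_E1_holds : P_E1 := by
  intro K F L _ _ _ _ _ _ _ _ _ _ _ _ m _ _ hm
  classical
  have hm3 : ∀ q : ℕ, q.Prime → q ∣ m → q % 3 = 1 := fun q hq hqm => by
    have := hm q hq hqm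
    omega
  have hm0 : m ≠ 0 := NeZero.ne m
  have h3 : Nat.Coprime 3 m := by
    rw [Nat.Prime.coprime_iff_not_dvd Nat.prime_three]
    intro h
    have := hm3 3 Nat.prime_three h
    omega
  have h2 : Nat.Coprime 2 m := by
    rw [Nat.Prime.coprime_iff_not_dvd Nat.prime_two]
    intro h
    have := hm3 2 Nat.prime_two h
    omega
  refine ⟨⟨by exact_mod_cast hm0, ?_, fun v₀ hv x => goodC hm0 hm v₀ hv x⟩, ?_⟩
  · have h6 : Nat.Coprime m 6 := by
      have : Nat.Coprime (2 * 3) m := Nat.Coprime.mul_left h2 h3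
      exact this.symm
    have := (Nat.isCoprime_iff_coprime.2 h6).map (Int.castRingHom (𝓞 K))
    simpa using this
  have hz := IsCyclotomicExtension.zeta_spec m K L
  have hgal : IsGalois K L := IsCyclotomicExtension.isGalois {m} K L
  let e : Gal(L/K) ≃* (ZMod m)ˣ := MulEquiv.ofBijective (hz.autToPow K) (autToPow_bij m h3 hz)
  let art : (𝓞 K ⧸ Ideal.span {(m : 𝓞 K)})ˣ →* Gal(F/K) :=
    (AlgEquiv.restrictNormalHom F).comp (e.symm.toMonoidHom.comp (Units.map (nq K m)))
  refine ⟨art, ⟨?_, ?_, ?_⟩, ?_⟩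
  · have h1 : Function.Surjective (AlgEquiv.restrictNormalHom F : Gal(L/K) →* Gal(F/K)) :=
      AlgEquiv.restrictNormalHom_surjective L
    exact h1.comp (e.symm.surjective.comp (nq_surj m (NeZero.ne m) hm3))
  · intro v hv
    obtain ⟨w, hw, hwv⟩ := Ideal.exists_maximal_ideal_liesOver_of_isIntegral v.asIdeal (S := 𝓞 L)
    have hwp : w.IsPrime := hw.isPrime
    have hmw : (m : 𝓞 L) ∉ w := by
      intro h
      apply hv
      rw [hwv.over, map_natCast]
      change algebraMap (𝓞 F) (𝓞 L) (m : 𝓞 F) ∈ w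
      simpa using h
    have := unram_L (F := K) m w hmw
    exact Algebra.IsUnramifiedAt.of_liesOver (𝓞 K) v.asIdeal w
  · intro p hp u hu v hv x
    have hpm : IsUnit (nm K m p) := by
      rw [← nq_mk, ← hu]
      exact (Units.map (nq K m) u).isUnit
    obtain ⟨σ, h1, h2⟩ := frob (K := F) m hz p hp hpm v hv
    have h4 : Units.map (nq K m) u = e σ := by
      apply Units.ext
      rw [Units.coe_map]
      change nq K m (u : _) = ((hz.autToPow K σ : (ZMod m)ˣ) : ZMod m)
      rw [h1, hu, nq_mk]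
    have h5 : art u = AlgEquiv.restrictNormalHom F σ := by
      change AlgEquiv.restrictNormalHom F (e.symm (Units.map (nq K m) u)) = _
      rw [h4, MulEquiv.symm_apply_apply]
    rw [h5]
    exact h2 x
  · intro v₀ c₁ c₂ hc hc1 hc2 w hw g
    exact loc hm3 hz e (fun σ => rfl) v₀ c₁ c₂ hc hc1 hc2 w hw g

end Pool.Agent.W2helper60.TQ
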