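import Pool.Agent.Y141.Art.Main

/-!
# Arithmetic of the ring of integers of `ℚ(√-3)` for piece E1
-/

set_option autoImplicit false

namespace Pool.Agent.W2helper60.TQ

open NumberField IsDedekindDomain Pool.Agent.Y141.Art

variable {K : Type} [Field K] [NumberField K] [IsCyclotomicExtension {3} ℚ K]

lemma rep (a : 𝓞 K) : ∃ x y : ℤ, a = (x : 𝓞 K) + (y : 𝓞 K) * om K := by
  obtain ⟨B, h0, h1⟩ := exists_basis (F := K)
  refine ⟨B.repr a 0, B.repr a 1, ?_⟩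
  conv_lhs => rw [← B.sum_repr a]
  rw [Fin.sum_univ_two, h0, h1]
  simp

lemma om_cube : (om K) ^ 3 = 1 := (om_prim (F := K)).pow_eq_one

/-- the conjugation -/
lemma exists_conj : ∃ τ : 𝓞 K ≃+* 𝓞 K, (∀ x, τ (τ x) = x) ∧ τ (om K) = (om K) ^ 2 ∧
    ∀ x, x * τ x = ((Algebra.norm ℤ x : ℤ) : 𝓞 K) := by
  let σ : Gal(K/ℚ) := (IsCyclotomicExtension.Rat.galEquivZMod 3 K).symm (-1)
  have h1 : σ • (om K) = (om K) ^ 2 := by
    rw [IsCyclotomicExtension.Rat.galEquivZMod_smul_of_pow_eq 3 K σ (x := om K) om_cube]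
    congr 1
    rw [MulEquiv.apply_symm_apply]
    decide
  let τ : 𝓞 K ≃+* 𝓞 K := MulSemiringAction.toRingEquiv Gal(K/ℚ) (𝓞 K) σ
  have hτ : τ (om K) = (om K) ^ 2 := h1
  have h2 : ∀ x y : ℤ, τ ((x : 𝓞 K) + (y : 𝓞 K) * om K) = (x : 𝓞 K) + (y : 𝓞 K) * (om K) ^ 2 := by
    intro x y
    rw [map_add, map_mul, map_intCast, map_intCast, hτ]
  refine ⟨τ, fun a => ?_, hτ, fun a => ?_⟩
  · obtain ⟨x, y, rfl⟩ := rep a
    rw [h2, map_add, map_mul, map_intCast, map_intCast, map_pow, hτ]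
    linear_combination (y : 𝓞 K) * om K * om_cube (K := K)
  · obtain ⟨x, y, rfl⟩ := rep a
    rw [h2, norm_eq]
    push_cast
    linear_combination ((x : 𝓞 K) * y) * om_eq (F := K) + (y : 𝓞 K) ^ 2 * om_cube (K := K)

lemma int_dvd {a b : ℤ} (h : (a : 𝓞 K) ∣ (b : 𝓞 K)) : a ∣ b := by
  obtain ⟨c, hc⟩ := h
  obtain ⟨x, y, rfl⟩ := rep c
  obtain ⟨B, h0, h1⟩ := exists_basis (F := K)
  have h2 : (b : ℤ) • B 0 = (a * x) • B 0 + (a * y) • B 1 := by
    rw [h0, h1, zsmul_eq_mul, zsmul_eq_mul, zsmul_eq_mul, hc]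
    push_cast
    ring
  have h3 := congrArg (fun z => B.repr z 0) h2
  simp only [map_add, map_smul, Module.Basis.repr_self, Finsupp.add_apply, Finsupp.smul_apply] at h3
  simp at h3
  exact ⟨x, h3⟩

omit [NumberField K] [IsCyclotomicExtension {3} ℚ K] in
/-- a prime that contains two elements that are not coprime -/
lemma exists_of_not_coprime {a b : 𝓞 K} (ha : a ≠ 0) (h : ¬ IsCoprime a b) :
    ∃ v : HeightOneSpectrum (𝓞 K), a ∈ v.asIdeal ∧ b ∈ v.asIdeal := by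
  have h1 : Ideal.span {a} ⊔ Ideal.span {b} ≠ ⊤ := by
    intro h2
    apply h
    rw [Ideal.isCoprime_span_singleton_iff _ _ |>.symm, Ideal.isCoprime_iff_sup_eq]
    exact h2
  obtain ⟨M, hM, hle⟩ := Ideal.exists_le_maximal _ h1
  have ha' : a ∈ M := hle (Ideal.mem_sup_left (Ideal.mem_span_singleton_self a))
  have hb' : b ∈ M := hle (Ideal.mem_sup_right (Ideal.mem_span_singleton_self b))
  exact ⟨⟨M, hM.isPrime, fun h => ha (by rw [h] at ha'; exact ha')⟩, ha', hb'⟩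

/-- a natural number in a prime has a prime factor in it -/
lemma exists_prime_mem {m : ℕ} (hm : m ≠ 0) {R : Type} [CommRing R] (I : Ideal R) [hI : I.IsPrime]
    (h : (m : R) ∈ I) : ∃ q : ℕ, q.Prime ∧ q ∣ m ∧ (q : R) ∈ I := by
  induction m using Nat.recOnMul with
  | zero => exact absurd rfl hm
  | one =>
    exfalso
    apply hI.ne_top
    rw [Ideal.eq_top_iff_one]
    simpa using h
  | prime p hp => exact ⟨p, hp, dvd_rfl, h⟩
  | mul a b iha ihb =>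
    rw [Nat.cast_mul] at h
    rcases hI.mem_or_mem h with h1 | h1
    · obtain ⟨q, h2, h3, h4⟩ := iha (fun h => hm (by rw [h, zero_mul])) h1
      exact ⟨q, h2, h3.mul_right b, h4⟩
    · obtain ⟨q, h2, h3, h4⟩ := ihb (fun h => hm (by rw [h, mul_zero])) h1
      exact ⟨q, h2, h3.mul_left a, h4⟩

/-- two rational primes in the same prime are equal -/
lemma prime_unique {R : Type} [CommRing R] (I : Ideal R) (hI : I ≠ ⊤) {p q : ℕ} (hp : p.Prime)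
    (hq : q.Prime) (h1 : (p : R) ∈ I) (h2 : (q : R) ∈ I) : p = q := by
  by_contra hne
  have hc : Nat.Coprime p q := (Nat.coprime_primes hp hq).2 hne
  obtain ⟨a, b, hab⟩ := Nat.isCoprime_iff_coprime.2 hc
  apply hI
  rw [Ideal.eq_top_iff_one]
  have h3 : ((a : R) * (p : R) + (b : R) * (q : R)) = 1 := by
    have := congrArg (Int.cast : ℤ → R) hab
    push_cast at this
    exact this
  rw [← h3]
  exact I.add_mem (I.mul_mem_left _ h1) (I.mul_mem_left _ h2)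

/-- the residue of `om` is an integer -/
lemma om_res {q : ℕ} (hq : q.Prime) (h3 : q % 3 = 1) (v : HeightOneSpectrum (𝓞 K))
    (hv : (q : 𝓞 K) ∈ v.asIdeal) : ∃ r : ℤ, om K - (r : 𝓞 K) ∈ v.asIdeal := by
  have : Fact q.Prime := ⟨hq⟩
  obtain ⟨s, hs⟩ := exists_root_prime q hq h3
  obtain ⟨s, rfl⟩ := ZMod.intCast_surjective s
  have hd : (q : ℤ) ∣ s ^ 2 + s + 1 := by
    rw [← ZMod.intCast_zmod_eq_zero_iff_dvd]
    push_cast
    exact hs
  obtain ⟨k, hk⟩ := hd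
  have hk' : ((s : 𝓞 K) ^ 2 + s + 1) = q * k := by
    have := congrArg (Int.cast : ℤ → 𝓞 K) hk
    push_cast at this
    exact this
  have h1 : (om K - (s : 𝓞 K)) * (om K + 1 + (s : 𝓞 K)) ∈ v.asIdeal := by
    have : (om K - (s : 𝓞 K)) * (om K + 1 + (s : 𝓞 K)) = - (k : 𝓞 K) * q := by
      linear_combination om_eq (F := K) - hk'
    rw [this]
    exact v.asIdeal.mul_mem_left _ hv
  rcases v.isPrime.mem_or_mem h1 with h2 | h2
  · exact ⟨s, h2⟩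
  · exact ⟨-1 - s, by push_cast; convert h2 using 1; ring⟩

/-- minus one is not a square modulo the primes that divide `m` -/
lemma goodC {m : ℕ} (hm0 : m ≠ 0) (h : ∀ q : ℕ, q.Prime → q ∣ m → q % 12 = 7)
    (v₀ : HeightOneSpectrum (𝓞 K)) (hm : (m : 𝓞 K) ∈ v₀.asIdeal) (x : 𝓞 K) :
    x ^ 2 + 1 ∉ v₀.asIdeal := by
  intro hx
  obtain ⟨q, hq, hqm, hqv⟩ := exists_prime_mem hm0 v₀.asIdeal hm
  have h12 := h q hq hqm
  obtain ⟨r, hr⟩ := om_res hq (by omega) v₀ hqv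
  obtain ⟨a, b, rfl⟩ := rep x
  have : Fact q.Prime := ⟨hq⟩
  -- the residue is an integer
  have h1 : ((a + b * r : ℤ) : 𝓞 K) ^ 2 + 1 ∈ v₀.asIdeal := by
    have : ((a + b * r : ℤ) : 𝓞 K) ^ 2 + 1 = ((a : 𝓞 K) + b * om K) ^ 2 + 1 -
        (b * (2 * a + b * (om K + r))) * (om K - r) := by
      push_cast
      ring
    rw [this]
    exact v₀.asIdeal.sub_mem hx (v₀.asIdeal.mul_mem_left _ hr)
  have h2 : (q : ℤ) ∣ (a + b * r) ^ 2 + 1 := by
    by_contra hnd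
    have hc : IsCoprime (q : ℤ) ((a + b * r) ^ 2 + 1) :=
      (Nat.prime_iff_prime_int.1 hq).coprime_iff_not_dvd.2 hnd
    obtain ⟨s, t, hst⟩ := hc
    apply v₀.isPrime.ne_top
    rw [Ideal.eq_top_iff_one]
    have h3 := congrArg (Int.cast : ℤ → 𝓞 K) hst
    push_cast at h3
    rw [← h3]
    refine v₀.asIdeal.add_mem (v₀.asIdeal.mul_mem_left _ ?_) (v₀.asIdeal.mul_mem_left _ ?_)
    · exact_mod_cast hqv
    · push_cast at h1
      exact h1
  have h3 : ((a + b * r : ℤ) : ZMod q) ^ 2 = -1 := by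
    have := (ZMod.intCast_zmod_eq_zero_iff_dvd ((a + b * r) ^ 2 + 1) q).2 h2
    push_cast at this ⊢
    linear_combination this
  have h4 : q % 4 ≠ 3 := ZMod.mod_four_ne_three_of_sq_eq_neg_one h3
  omega

/-- the shape of the decomposition -/
lemma shape {m : ℕ} (hm0 : m ≠ 0) (h3 : ∀ q : ℕ, q.Prime → q ∣ m → q % 3 = 1)
    (τ : 𝓞 K ≃+* 𝓞 K) (hom : τ (om K) = (om K) ^ 2)
    (hN : ∀ x, x * τ x = ((Algebra.norm ℤ x : ℤ) : 𝓞 K))
    (v₀ : HeightOneSpectrum (𝓞 K)) (c₁ c₂ : 𝓞 K) (hc : (m : 𝓞 K) = c₁ * c₂)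
    (h1 : ∀ v : HeightOneSpectrum (𝓞 K), c₁ ∈ v.asIdeal → v = v₀) (h2 : c₂ ∉ v₀.asIdeal) :
    IsCoprime c₁ c₂ ∧ ∃ N m' : ℕ, m = N * m' ∧ c₂ = τ c₁ * m' ∧ c₁ * τ c₁ = (N : 𝓞 K) ∧
      (m' : 𝓞 K) ∉ v₀.asIdeal ∧ ∀ l : ℕ, l.Prime → l ∣ N → (l : 𝓞 K) ∈ v₀.asIdeal := by
  have hmK : (m : 𝓞 K) ≠ 0 := by exact_mod_cast hm0
  have hc1 : c₁ ≠ 0 := by
    rintro rfl
    rw [zero_mul] at hc
    exact hmK hc
  have hτn : ∀ k : ℕ, τ (k : 𝓞 K) = k := fun k => map_natCast τ k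
  -- the comap
  have hcom : ∀ v : HeightOneSpectrum (𝓞 K), τ c₁ ∈ v.asIdeal → ∀ x, x ∈ v₀.asIdeal ↔
      τ x ∈ v.asIdeal := by
    intro v hv x
    let v' : HeightOneSpectrum (𝓞 K) := ⟨v.asIdeal.comap (τ : 𝓞 K →+* 𝓞 K),
      Ideal.comap_isPrime _ _, by
        intro h
        have : c₁ ∈ v.asIdeal.comap (τ : 𝓞 K →+* 𝓞 K) := hv
        rw [h] at this
        exact hc1 this⟩
    have h5 := h1 v' hv
    rw [← h5]
    rfl
  have hco : IsCoprime c₁ c₂ := by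
    by_contra hne
    obtain ⟨v, hv1, hv2⟩ := exists_of_not_coprime hc1 hne
    rw [h1 v hv1] at hv2
    exact h2 hv2
  have hco' : IsCoprime c₁ (τ c₁) := by
    by_contra hne
    obtain ⟨v, hv1, hv2⟩ := exists_of_not_coprime hc1 hne
    have hv := h1 v hv1
    have h5 := hcom v hv2
    rw [hv] at hv1 hv2 h5
    have hmv : (m : 𝓞 K) ∈ v₀.asIdeal := by
      rw [hc]
      exact v₀.asIdeal.mul_mem_right _ hv1
    obtain ⟨q, hq, hqm, hqv⟩ := exists_prime_mem hm0 v₀.asIdeal hmv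
    have hq3 := h3 q hq hqm
    obtain ⟨r, hr⟩ := om_res hq hq3 v₀ hqv
    have hr' := (h5 _).1 hr
    rw [map_sub, hom, map_intCast] at hr'
    have h6 := v₀.asIdeal.sub_mem hr' hr
    have h7 : (3 : 𝓞 K) ∈ v₀.asIdeal := by
      have : (3 : 𝓞 K) = (-(om K ^ 2 - om K)) * (om K ^ 2 - (r : 𝓞 K) - (om K - r)) := by
        linear_combination (3 - 3 * om K + om K ^ 2) * om_eq (F := K)
      rw [this]
      exact v₀.asIdeal.mul_mem_left _ h6
    have := prime_unique v₀.asIdeal v₀.isPrime.ne_top hq Nat.prime_three hqv (by exact_mod_cast h7)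
    omega
  have hd : τ c₁ ∣ (m : 𝓞 K) := by
    refine ⟨τ c₂, ?_⟩
    rw [← map_mul, ← hc, hτn]
  have hd' : c₁ * τ c₁ ∣ (m : 𝓞 K) := hco'.mul_dvd ⟨c₂, hc⟩ hd
  obtain ⟨N, hNN⟩ : ∃ N : ℕ, Algebra.norm ℤ c₁ = N := ⟨_, (Int.toNat_of_nonneg (norm_nonneg' c₁)).symm⟩
  have hN1 : c₁ * τ c₁ = (N : 𝓞 K) := by
    rw [hN, hNN]
    norm_cast
  rw [hN1] at hd'
  have hNm : N ∣ m := by
    have : ((N : ℤ) : 𝓞 K) ∣ ((m : ℤ) : 𝓞 K) := by exact_mod_cast hd'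
    exact_mod_cast int_dvd this
  obtain ⟨m', hm'⟩ := hNm
  have hc2 : c₂ = τ c₁ * m' := by
    apply mul_left_cancel₀ hc1
    rw [← hc, ← mul_assoc, hN1, hm']
    push_cast
    rfl
  refine ⟨hco, N, m', hm', hc2, hN1, ?_, ?_⟩
  · intro h
    apply h2
    rw [hc2]
    exact v₀.asIdeal.mul_mem_left _ h
  · intro l hl hlN
    have hl0 : (l : 𝓞 K) ≠ 0 := by exact_mod_cast hl.ne_zero
    have hnu : ¬ IsUnit (l : 𝓞 K) := by
      intro hu
      obtain ⟨k, hk⟩ := hu.dvd (a := (1 : 𝓞 K))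
      have : ((l : ℤ) : 𝓞 K) ∣ ((1 : ℤ) : 𝓞 K) := ⟨k, by push_cast; exact hk⟩
      have h8 := int_dvd this
      have := Int.natCast_dvd_natCast.1 (by simpa using h8 : (l : ℤ) ∣ ((1 : ℕ) : ℤ))
      exact hl.one_lt.ne' (Nat.dvd_one.1 this)
    obtain ⟨M, hM, hlM⟩ := exists_max_ideal_of_mem_nonunits (a := (l : 𝓞 K)) hnu
    let v : HeightOneSpectrum (𝓞 K) := ⟨M, hM.isPrime, fun h => hl0 (by rw [h] at hlM; exact hlM)⟩
    have hNM : c₁ * τ c₁ ∈ M := by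
      rw [hN1]
      obtain ⟨k, rfl⟩ := hlN
      push_cast
      exact M.mul_mem_right _ hlM
    rcases hM.isPrime.mem_or_mem hNM with h9 | h9
    · have := h1 v h9
      rw [← this]
      exact hlM
    · rw [hcom v h9, hτn]
      exact hlM

end Pool.Agent.W2helper60.TQ
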